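import Pool.Agent.K1H60.HS.TwoHel

/-!
The Prodi-Serrin criterion for the three-dimensional Navier-Stokes equations on the torus, relative
to fields whose parts of opposite helicities do not interact at comparable scales, and its general
form: the critical relative criterion.

The proof is an estimate of the critical norm `∑ 2π|k| |û(k)|²`: the nonlinear term changes it at the
rate `2 crit u`, where `crit` is a cubic functional; `crit u - crit v` is bounded by the norms of
`u`, `v` and one factor `u - v` (`crit_compare`), for every multiplier of order `3 / p`; `crit`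
vanishes on divergence-free fields of one helicity (`crit_hel`), which is the conservation of the
helicity, and on the sum of two fields of opposite helicities it is a sum over the triads with one
frequency of one field and two of the other (`prod_mixed`), in which a low single frequency `r`
contributes only with the factor `|r|²` (`gap_le`).
-/

open MeasureTheory Set H459R3.NS Pool.Agent.K1H60.HS
open scoped ENNReal

set_option autoImplicit false

/-- (1) Let `e > 7 / 6`, `K ≥ 0`. There are constants `c > 0` and `m` such that for all `3 < p ≤ ∞`,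
`3 / p + 2 / q = 1` and `ν > 0` there is a constant `C` such that the following holds for every smooth
periodic solution `(u, P)` of the Navier-Stokes equations on `[0, T) × ℝ³`. Let `A ≥ 0`, let `M > 0`
with `M³ ν ≥ m (∫ |u(0)|²)^(1/2)` and let `β ≥ 0` be a function with `∫₀ᵀ β^q < ∞`. Suppose that for
every time `t ∈ (0, T)` there are symmetric sets `F`, `G` of frequencies (which may depend on `t` in
an arbitrary way) such that
* in every triad `r + p + q = 0` with `r ∈ G` and `p, q ∈ F`, or with `r ∈ F` and `p, q ∈ G`, the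
  single frequency is low: `M (2π|r|)^e ≤ 2π|p|`,
* `u t` is the sum of its part of helicity `+` with frequencies in `F`, of its part of helicity `-`
  with frequencies in `G`, of a smooth field whose nonzero frequencies lie in a two-dimensional set
  (with constant `A`) and whose critical norm is at most `K` times that of `u t`, of a smooth field
  whose components have norm at most `c ν` in `L³`, and of a field whose components have norm at most
  `β t` in `L^p` over the period cell.
Then `∑ 2π|k| |û(t,k)|² ≤ ∑ 2π|k| |û(0,k)|² · exp (C (∫₀ᵀ β^q + A ∫ |u(0)|²))` for `t ∈ [0, T)`, and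
`u` is bounded on `[0, T) × ℝ³`, so that `T` is not a blow-up time. Examples: `G = ∅` and `F` the set
of all frequencies, or vice versa (at every time only one of the two helical parts of `u` has to be
controlled, which one may depend on the time in an arbitrary way); or sets `F`, `G` such that
`M (2π|k|)^e ≤ 2π|l|` or `M (2π|l|)^e ≤ 2π|k|` for all `k ∈ F`, `l ∈ G`, `M > 2` (the sign of the
helicity which has to be controlled may also depend on the scale, with gaps between the scales).

(2) More generally, let `K ≥ 0`, `κ ≥ 0` and `lam < 1 - κ`. There is a constant `c > 0` such that for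
all `p`, `q`, `ν` as above there is a constant `C` such that the following holds. Let `A ≥ 0`, let
`β, γ ≥ 0` with `∫₀ᵀ β^q < ∞` and `∫₀ᵀ γ < ∞`. Suppose that for every time `t ∈ (0, T)` there are
smooth periodic fields `v`, `w`, `r` such that
* `v` is divergence-free, its norms of order `1/2`, `1`, `3/2` are at most `K` times those of `u t`,
  and its critical production `crit v` is at most
  `lam (crit u t) + κ ν ∑ (2π|k|)³ |û(t,k)|² + γ t ∑ 2π|k| |û(t,k)|²`,
* the nonzero frequencies of `w` lie in a two-dimensional set (with constant `A`) and the critical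
  norm of `w` is at most `K` times that of `u t`,
* the components of `r` have norm at most `c ν` in `L³`,
* the components of `u t - v - w - r` have norm at most `β t` in `L^p`.
Then the same conclusion holds, with `∫₀ᵀ β^q + ∫₀ᵀ γ + A ∫ |u(0)|²` in the exponential. Statement (1)
is the case that `v` is the sum of the two helical parts with frequencies in `F` and `G`. -/
theorem Pool.Agent.Results.MP_6bf1e5_an.HelicitySerrin.result :
    (∀ e K : ℝ, 7 / 6 < e → 0 ≤ K →
      ∃ c m : ℝ, 0 < c ∧ 0 ≤ m ∧ ∀ (p : ℝ≥0∞) (q ν : ℝ), 3 < p → 3 * (p⁻¹).toReal + 2 / q = 1 →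
      0 < ν → ∃ C : ℝ, 0 ≤ C ∧ ∀ (T A M : ℝ) (u : ℝ → V → V) (P : ℝ → V → ℝ) (β : ℝ → ℝ),
        IsSol ν T u P → 0 ≤ A → 0 < M → m * Real.sqrt (energy (u 0)) ≤ M ^ 3 * ν →
        (∀ t ∈ Ioo 0 T, 0 ≤ β t) → IntegrableOn (fun t => β t ^ q) (Ioo 0 T) →
        (∀ t ∈ Ioo 0 T, TwoHel M e K (c * ν) A (β t) p (u t)) →
        (∀ t ∈ Ico 0 T, half (u t) ≤ half (u 0) * Real.exp
          (C * ((∫ s in Ioo 0 T, β s ^ q) + A * energy (u 0)))) ∧
        ∃ B, ∀ t ∈ Ico 0 T, ∀ x i, |u t x i| ≤ B) ∧
    (∀ K lam κ : ℝ, 0 ≤ K → 0 ≤ κ → κ < 1 - lam →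
      ∃ c : ℝ, 0 < c ∧ ∀ (p : ℝ≥0∞) (q ν : ℝ), 3 < p → 3 * (p⁻¹).toReal + 2 / q = 1 → 0 < ν →
      ∃ C : ℝ, 0 ≤ C ∧ ∀ (T A : ℝ) (u : ℝ → V → V) (P : ℝ → V → ℝ) (β γ : ℝ → ℝ),
        IsSol ν T u P → 0 ≤ A → (∀ t ∈ Ioo 0 T, 0 ≤ β t ∧ 0 ≤ γ t) →
        IntegrableOn (fun t => β t ^ q) (Ioo 0 T) → IntegrableOn γ (Ioo 0 T) →
        (∀ t ∈ Ioo 0 T, Cmp K lam (κ * ν) (c * ν) A (β t) (γ t) p (u t)) →
        (∀ t ∈ Ico 0 T, half (u t) ≤ half (u 0) * Real.exp
          (C * ((∫ s in Ioo 0 T, β s ^ q) + (∫ s in Ioo 0 T, γ s) + A * energy (u 0)))) ∧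
        ∃ B, ∀ t ∈ Ico 0 T, ∀ x i, |u t x i| ≤ B) :=
  ⟨fun _ _ he hK => two_helicities he hK, fun _ _ _ hK hκ0 hκ => serrin_half hK hκ0 hκ⟩
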